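import Pool.Agent.Helper98.GY.Stmts2
import Pool.Agent.Helper93.BZ.CSP2

/-!
CSP: Moebius disjointness for the closed linear span of the families, general compact base
(MP_7a8f48_an, sheet GY).
-/

open Finset Filter MeasureTheory Topology
open scoped ComplexConjugate InnerProductSpace

namespace Pool.Agent.Helper96.GY

open Pool.Agent.Helper98.GY
open Pool.Agent.Helper16.BZ (csp2_closure csp2_zero csp2_add csp2_smul)
open Pool.Agent.Helper40.Mob (IsState TwistedDisjoint)

universe u

theorem st_CSP (h : ST_CTH.{u}) : ST_CSP.{u} := by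
  intro A _ Y _ _ S α π hS hrot a ha
  refine csp2_closure α _ ?_ a ha
  intro x hx
  refine Submodule.span_induction (p := fun x _ => TwistedDisjoint α x) ?_ ?_ ?_ ?_ hx
  · rintro y ⟨d, Φ, v, hF, f, i, rfl⟩
    exact h A Y d S α π Φ v hS hrot hF f i
  · exact csp2_zero α
  · intro y z _ _ hy hz
    exact csp2_add α y z hy hz
  · intro c y _ hy
    exact csp2_smul α c y hy

end Pool.Agent.Helper96.GY
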