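import Pool.Agent.Helper98.GY.Stmts

/-!
Basic facts on Riemann integrable functions and cocycles on a compact metric space `Y` with a
probability measure `ν` (MP_7a8f48_an, sheet GY).
-/

set_option linter.unusedSectionVars false

open Finset Filter MeasureTheory Topology
open scoped ComplexConjugate InnerProductSpace

namespace Pool.Agent.Helper98.GY

open Pool.Agent.Helper16.AZ (T E Op mm fc unitary_norm unitary_inner unitary_star inner_star)
open Pool.Agent.Helper16.BZ (co Wk EE ff EQ)
open Pool.Agent.Helper16.MD (MS PB Am RW Rich)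
open Pool.Agent.Helper40.DZ (UM)

section basic

variable {Y : Type} [MetricSpace Y] [CompactSpace Y] [MeasurableSpace Y] [BorelSpace Y]
  {ν : Measure Y} [IsProbabilityMeasure ν]

theorem aesm_of_ae {V : Type} [TopologicalSpace V] [TopologicalSpace.PseudoMetrizableSpace V]
    {F : Y → V} (h : ∀ᵐ x ∂ν, ContinuousAt F x) : AEStronglyMeasurable F ν := by
  let := TopologicalSpace.pseudoMetrizableSpacePseudoMetric V
  obtain ⟨A, hA⟩ : ∃ A : Set Y, A = {x | ContinuousAt F x} := ⟨_, rfl⟩
  have h1 : MeasurableSet A := by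
    rw [hA]
    exact (IsGδ.setOfPred_continuousAt F).measurableSet
  have h2 : ContinuousOn F A := by
    intro x hx
    rw [hA] at hx
    exact ContinuousAt.continuousWithinAt hx
  have h3 := h2.aestronglyMeasurable (μ := ν) h1
  have h4 : ∀ᵐ x ∂ν, x ∈ A := by
    rw [hA]
    exact h
  rwa [Measure.restrict_eq_self_of_ae_mem h4] at h3

variable {V : Type} [NormedAddCommGroup V] {F G : Y → V}

theorem RI.aesm (h : RI ν F) : AEStronglyMeasurable F ν := aesm_of_ae h.1

theorem RI.of_continuous (h : Continuous F) : RI ν F := by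
  refine ⟨Eventually.of_forall fun x => h.continuousAt, ?_⟩
  obtain ⟨C, hC⟩ := (isCompact_range h).isBounded.exists_norm_le
  exact ⟨C, fun x => hC _ ⟨x, rfl⟩⟩

theorem RI.integrable (h : RI ν F) : Integrable F ν := by
  obtain ⟨C, hC⟩ := h.2
  exact Integrable.of_bound h.aesm C (Eventually.of_forall hC)

theorem RI.memLp (h : RI ν F) (p : ENNReal) : MemLp F p ν := by
  obtain ⟨C, hC⟩ := h.2
  exact MemLp.of_bound h.aesm C (Eventually.of_forall hC)

theorem RI.norm (h : RI ν F) : RI ν (fun x => ‖F x‖) := by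
  obtain ⟨C, hC⟩ := h.2
  exact ⟨h.1.mono fun x hx => hx.norm, C, fun x => by rw [norm_norm]; exact hC x⟩

theorem RI.add (h : RI ν F) (h' : RI ν G) : RI ν (fun x => F x + G x) := by
  obtain ⟨C, hC⟩ := h.2
  obtain ⟨C', hC'⟩ := h'.2
  refine ⟨?_, C + C', fun x => (norm_add_le _ _).trans (add_le_add (hC x) (hC' x))⟩
  filter_upwards [h.1, h'.1] with x h1 h2
  exact h1.add h2

theorem RI.neg (h : RI ν F) : RI ν (fun x => -F x) := by
  obtain ⟨C, hC⟩ := h.2
  exact ⟨h.1.mono fun x hx => hx.neg, C, fun x => by rw [norm_neg]; exact hC x⟩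

theorem RI.sub (h : RI ν F) (h' : RI ν G) : RI ν (fun x => F x - G x) := by
  simpa only [sub_eq_add_neg] using h.add h'.neg

theorem RI.sum {ι : Type} (s : Finset ι) {F : ι → Y → V} (h : ∀ k ∈ s, RI ν (F k)) :
    RI ν (fun x => ∑ k ∈ s, F k x) := by
  classical
  induction s using Finset.induction_on with
  | empty =>
    simp only [Finset.sum_empty]
    exact RI.of_continuous continuous_const
  | insert a s ha ih =>
    simp only [Finset.sum_insert ha]
    exact (h a (Finset.mem_insert_self _ _)).add (ih fun k hk => h k (Finset.mem_insert_of_mem hk))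

theorem RI.mul {F G : Y → ℂ} (h : RI ν F) (h' : RI ν G) : RI ν (fun x => F x * G x) := by
  obtain ⟨C, hC⟩ := h.2
  obtain ⟨C', hC'⟩ := h'.2
  refine ⟨?_, C * C', fun x => ?_⟩
  · filter_upwards [h.1, h'.1] with x h1 h2
    exact h1.mul h2
  · rw [norm_mul]
    exact mul_le_mul (hC x) (hC' x) (norm_nonneg _) ((norm_nonneg _).trans (hC x))

theorem RI.conj {F : Y → ℂ} (h : RI ν F) : RI ν (fun x => conj (F x)) := by
  obtain ⟨C, hC⟩ := h.2
  refine ⟨h.1.mono fun x hx => ?_, C, fun x => by rw [RCLike.norm_conj]; exact hC x⟩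
  exact (Complex.continuous_conj.continuousAt).comp hx

theorem RI.const_smul {V : Type} [NormedAddCommGroup V] [NormedSpace ℂ V] {F : Y → V}
    (a : ℂ) (h : RI ν F) : RI ν (fun x => a • F x) := by
  obtain ⟨C, hC⟩ := h.2
  refine ⟨h.1.mono fun x hx => continuousAt_const.smul hx, ‖a‖ * C, fun x => ?_⟩
  rw [norm_smul]
  exact mul_le_mul_of_nonneg_left (hC x) (norm_nonneg _)

/-- functions with a null set of discontinuities are stable under `Continuous` maps -/
theorem RI.cont_comp {V W : Type} [NormedAddCommGroup V] [NormedAddCommGroup W]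
    [ProperSpace V] {F : Y → V} (h : RI ν F) {g : V → W} (hg : Continuous g) :
    RI ν (fun x => g (F x)) := by
  obtain ⟨C, hC⟩ := h.2
  refine ⟨h.1.mono fun x hx => hg.continuousAt.comp hx, ?_⟩
  obtain ⟨C', hC'⟩ := ((isCompact_closedBall (0 : V) C).image hg).isBounded.exists_norm_le
  exact ⟨C', fun x => hC' _ ⟨F x, by simpa using hC x, rfl⟩⟩

theorem RI.comp {S : Y → Y} (hS : Continuous S) (hm : MeasurePreserving S ν ν)
    (h : RI ν F) : RI ν (fun x => F (S x)) := by
  obtain ⟨C, hC⟩ := h.2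
  refine ⟨?_, C, fun x => hC _⟩
  filter_upwards [hm.quasiMeasurePreserving.ae h.1] with x hx
  exact ContinuousAt.comp (f := S) hx hS.continuousAt

theorem RI.inner {d : ℕ} {F G : Y → E d} (h : RI ν F) (h' : RI ν G) :
    RI ν (fun x => inner ℂ (F x) (G x) : Y → ℂ) := by
  obtain ⟨C, hC⟩ := h.2
  obtain ⟨C', hC'⟩ := h'.2
  refine ⟨?_, C * C', fun x => ?_⟩
  · filter_upwards [h.1, h'.1] with x h1 h2
    exact ContinuousAt.inner h1 h2
  · refine (norm_inner_le_norm _ _).trans ?_
    exact mul_le_mul (hC x) (hC' x) (norm_nonneg _) ((norm_nonneg _).trans (hC x))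

variable {d : ℕ} {φ : Y → Op d} {S : Y → Y}

theorem UR.of_continuous (h : Continuous φ) (h' : ∀ x, φ x ∈ unitary (Op d)) : UR ν φ :=
  ⟨Eventually.of_forall fun _ => h.continuousAt, h'⟩

theorem UR.um (h : UR ν φ) : UM ν φ := ⟨aesm_of_ae h.1, h.2⟩

theorem UR.aesm (h : UR ν φ) : AEStronglyMeasurable φ ν := aesm_of_ae h.1

theorem iter_cont (hS : Continuous S) (n : ℕ) : Continuous S^[n] := hS.iterate n

theorem iter_mp (hm : MeasurePreserving S ν ν) (n : ℕ) :
    MeasurePreserving S^[n] ν ν := hm.iterate n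

theorem co_ae (hS : Continuous S) (hm : MeasurePreserving S ν ν) (h : UR ν φ) (n : ℕ) :
    ∀ᵐ x ∂ν, ContinuousAt (co S φ n) x := by
  induction n with
  | zero => exact Eventually.of_forall fun x => continuousAt_const
  | succ n ih =>
    filter_upwards [ih, (iter_mp hm n).quasiMeasurePreserving.ae h.1] with x h1 h2
    have h3 : ContinuousAt (fun x => φ (S^[n] x)) x :=
      ContinuousAt.comp (f := S^[n]) h2 (iter_cont hS n).continuousAt
    exact h3.mul h1

theorem Wk_RI (hS : Continuous S) (hm : MeasurePreserving S ν ν) (h : UR ν φ)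
    {b : Y → E d} (hb : RI ν b) (k : ℕ) : RI ν (Wk S φ k b) := by
  obtain ⟨C, hC⟩ := hb.2
  refine ⟨?_, C, fun x => ?_⟩
  · filter_upwards [co_ae hS hm h k, (hb.comp (iter_cont hS k) (iter_mp hm k)).1] with x h1 h2
    have h3 : ContinuousAt (fun x => star (co S φ k x)) x :=
      ((ContinuousLinearMap.adjoint : Op d ≃ₗᵢ⋆[ℂ] Op d).continuous.continuousAt).comp h1
    exact h3.clm_apply h2
  · rw [Pool.Agent.Helper16.BZ.Wk_norm S φ b h.2]
    exact hC _

theorem EE_RI (hS : Continuous S) (hm : MeasurePreserving S ν ν) (h : UR ν φ)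
    {b : Y → E d} (hb : RI ν b) (k k' : ℕ) : RI ν (EE S φ b k k') :=
  (Wk_RI hS hm h hb k).inner (Wk_RI hS hm h hb k')

end basic

end Pool.Agent.Helper98.GY
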